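import Pool.Agent.Helper28.HM.FnTools
import Pool.Agent.Helper83.HM.NullTools
import Pool.Agent.Helper82.HM.LemmaA0
import Pool.Agent.Helper46.HM.LemmaA1
import Pool.Agent.Helper85.HM.LemmaA2
import Pool.Agent.Helper45.HM.LemmaA3

/-!
# Lemma A (project HM, module A4)
-/

set_option autoImplicit false
set_option linter.unusedSectionVars false

namespace Pool.Agent.Helper33.HM

universe u

section A4

variable {B : Type u} [CompleteBooleanAlgebra B] {S T : Set B}

theorem h37_isPr_bot : IsPr (fun _ => (⊥ : B)) := fun _ => by simp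

/-- The intersection over the names extending `r` is smaller than the one over the names
extending the zero sequence of the same length. -/
theorem h37_infC_le (hT : IsSub T) (C : (ℕ → ℕ → B) → List Bool → B)
    (hmono : ∀ f g, IsFn T f → IsFn T g → ∀ σ, leF f g ⊓ C g σ ≤ C f σ) (r : List ℕ)
    (σ : List Bool) : infC T C r σ ≤ infC T C (List.replicate r.length 0) σ := by
  refine le_iInf fun f => le_iInf fun hf => ?_
  obtain ⟨hf1, hf2⟩ := hf
  let g : ℕ → ℕ → B := fun i => if h : i < r.length then natN r[i] else f i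
  have hg : IsFn T g := by
    have hc := isFn_chk (B := B) hT (fun i => if h : i < r.length then r[i] else 0)
    constructor
    · intro n k
      by_cases h : n < r.length
      · have := hc.mem n k
        simpa [g, chk, h] using this
      · simpa [g, h] using hf1.mem n k
    · intro n k
      by_cases h : n < r.length
      · have := hc.mono n k
        simpa [g, chk, h] using this
      · simpa [g, h] using hf1.mono n k
    · intro n
      by_cases h : n < r.length
      · have := hc.tot n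
        simpa [g, chk, h] using this
      · simpa [g, h] using hf1.tot n
  have hge : ExtF r g := by
    intro i h
    simp [g, h]
  have hle : leF f g = ⊤ := by
    rw [leF_eq_top_iff]
    intro n k
    by_cases h : n < r.length
    · have h0 := hf2 n (by simpa using h)
      have : f n k = ⊤ := by
        rw [h0]
        simp [natN]
      rw [this]
      exact le_top
    · simp [g, h]
  calc infC T C r σ ≤ C g σ := iInf_le_of_le g (iInf_le_of_le ⟨hg, hge⟩ le_rfl)
    _ = leF f g ⊓ C g σ := by rw [hle, top_inf_eq]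
    _ ≤ C f σ := hmono f g hf1 hg σ

/-- Every branch leaves a finite set of nodes. -/
theorem h37_bar (a : List ℕ → B) (hsup : ∀ τ, ⨆ m, a (m :: τ) = a τ) (R : Finset (List ℕ))
    (X : B) (hX : ∀ τ ∈ R, ∀ m, m :: τ ∉ R → a (m :: τ) ≤ X) : ∀ τ ∈ R, a τ ≤ X := by
  obtain ⟨M, hM⟩ : ∃ M : ℕ, ∀ τ ∈ R, τ.length ≤ M :=
    ⟨R.sup List.length, fun τ hτ => Finset.le_sup (f := List.length) hτ⟩
  have key : ∀ k : ℕ, ∀ τ ∈ R, M - τ.length = k → a τ ≤ X := by
    intro k
    induction k with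
    | zero =>
      intro τ hτ hk
      rw [← hsup τ]
      refine iSup_le fun m => ?_
      refine hX τ hτ m fun hm => ?_
      have h1 := hM _ hm
      have h2 := hM _ hτ
      simp only [List.length_cons] at h1
      omega
    | succ k ih =>
      intro τ hτ hk
      rw [← hsup τ]
      refine iSup_le fun m => ?_
      by_cases hm : m :: τ ∈ R
      · refine ih _ hm ?_
        simp only [List.length_cons]
        omega
      · exact hX τ hτ m hm
  exact fun τ hτ => key _ τ hτ rfl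

theorem lemmaA (hc : CCC B) (hS : IsSub S) (hT : IsSub T) (hST : S ⊆ T)
    (C : (ℕ → ℕ → B) → List Bool → B)
    (hC : ∀ f, IsFn T f → (∀ σ, C f σ ∈ T) ∧ IsPr (C f))
    (hmono : ∀ f g, IsFn T f → IsFn T g → ∀ σ, leF f g ⊓ C g σ ≤ C f σ)
    (hloc : ∀ r : List ℕ, ∀ b ∈ T, b ≠ ⊥ → ∃ c ∈ T, c ≠ ⊥ ∧ c ≤ b ∧ Type1 S (infC T C r) c)
    {b : B} (hb : b ∈ T) (hb0 : b ≠ ⊥) :
    ∃ c ∈ T, c ≠ ⊥ ∧ c ≤ b ∧ ∃ f, IsFn T f ∧ Type1 S (C f) c := by
  classical
  obtain ⟨a, haT, hab, ha0, haQ, hadisj, hasup⟩ :=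
    exists_tree hc hT (fun n c => Type1 S (infC T C (List.replicate n 0)) c)
      (fun n => ⟨fun _ => ⊥, fun _ => hS.bot_mem, h37_isPr_bot, nullV_bot, bot_le⟩)
      (fun n b hb hb0 => hloc _ b hb hb0) hb hb0
  choose Z hZS hZpr hZnull hZsub using haQ
  obtain ⟨F, hFfn, hFext, hFC, hFmono⟩ :=
    exists_star hc hT C (fun f hf => (hC f hf).1) hmono
  obtain ⟨Φ, hΦfn, hΦmono, hΦF⟩ :=
    exists_limit_map hS hT hST a haT hadisj hasup F hFfn hFext hFmono
  let D : (ℕ → ℕ → B) → List Bool → B := fun h σ => proj S (a [] ⊓ C (Φ h) σ)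
  have hD : ∀ h, IsFn S h → (∀ σ, D h σ ∈ S) ∧ IsPr (D h) := by
    intro h hh
    refine ⟨fun σ => hS.proj_mem _, fun σ => ?_⟩
    have h1 := (hC (Φ h) (hΦfn h hh)).2 σ
    change proj S (a [] ⊓ C (Φ h) σ) =
      proj S (a [] ⊓ C (Φ h) (σ ++ [false])) ⊔ proj S (a [] ⊓ C (Φ h) (σ ++ [true]))
    rw [← hS.proj_sup, ← inf_sup_left, ← h1]
  have hDmono : ∀ h h', IsFn S h → IsFn S h' → ∀ σ, leF h h' ⊓ D h' σ ≤ D h σ := by
    intro h h' hh hh' σ
    have h1 : leF h h' ⊓ proj S (a [] ⊓ C (Φ h') σ) =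
        proj S (leF h h' ⊓ (a [] ⊓ C (Φ h') σ)) := (hS.proj_inf (leF_mem hS hh hh') _).symm
    change leF h h' ⊓ proj S (a [] ⊓ C (Φ h') σ) ≤ proj S (a [] ⊓ C (Φ h) σ)
    rw [h1]
    refine proj_mono S (le_inf ?_ ?_)
    · exact inf_le_right.trans inf_le_left
    · calc leF h h' ⊓ (a [] ⊓ C (Φ h') σ) = (a [] ⊓ leF h h') ⊓ C (Φ h') σ := by
            rw [← inf_assoc, inf_comm (leF h h')]
        _ ≤ leF (Φ h) (Φ h') ⊓ C (Φ h') σ := inf_le_inf_right _ (hΦmono h h' hh hh')
        _ ≤ C (Φ h) σ := hmono _ _ (hΦfn h hh) (hΦfn h' hh') σ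
  have hDnull : ∀ ρ : List ℕ, nullV (infC S D ρ) = ⊤ := by
    intro ρ
    let R : Finset (List ℕ) := insert [] ((Finset.range ρ.length).biUnion fun i =>
      (Encodable.decode (α := List ℕ) i).toFinset)
    have hR : ∀ τ : List ℕ, τ ∉ R → ρ.length ≤ Encodable.encode τ := by
      intro τ hτ
      by_contra hcon
      push Not at hcon
      apply hτ
      refine Finset.mem_insert_of_mem ?_
      rw [Finset.mem_biUnion]
      exact ⟨Encodable.encode τ, Finset.mem_range.2 hcon, by simp⟩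
    refine nullV_of_le (Z := fun σ => ⨆ τ ∈ R, Z τ σ) ?_
      (nullV_iSup_finset R Z fun τ _ => ⟨hZpr τ, hZnull τ⟩)
    intro σ
    let u : ℕ → ℕ := fun i => if h : i < ρ.length then ρ[i] else σ.length
    have hu : IsFn S (chk u : ℕ → ℕ → B) := isFn_chk hS u
    have hue : ExtF ρ (chk u : ℕ → ℕ → B) := by
      intro i h
      simp [chk, u, h]
    have h1 : infC S D ρ σ ≤ D (chk u) σ := iInf_le_of_le (chk u) (iInf_le_of_le ⟨hu, hue⟩ le_rfl)
    refine h1.trans ?_
    refine hS.proj_le (hS.iSup_mem fun τ => hS.iSup_mem fun _ => hZS τ σ) ?_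
    have h2 : a [] ≤ (C (Φ (chk u)) σ)ᶜ ⊔ ⨆ τ ∈ R, Z τ σ := by
      refine h37_bar a hasup R _ ?_ [] (Finset.mem_insert_self _ _)
      intro τ hτ m hm
      have h3 := hR _ hm
      have h4 : (chk u : ℕ → ℕ → B) (Encodable.encode (m :: τ)) = natN σ.length := by
        have : ¬ Encodable.encode (m :: τ) < ρ.length := not_lt.2 h3
        simp only [chk, u, dif_neg this]
      have h5 := hΦF (chk u) hu τ m σ.length h4
      have h6 : a (m :: τ) ⊓ C (Φ (chk u)) σ ≤ Z τ σ := by
        have h7 : a (m :: τ) ⊓ C (Φ (chk u)) σ ≤ (a (m :: τ) ⊓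
            ⨆ r : List ℕ, ⨆ _ : r.length = τ.length, leF (F r σ.length) (Φ (chk u))) ⊓
            C (Φ (chk u)) σ := inf_le_inf_right _ (le_inf le_rfl h5)
        refine h7.trans ?_
        rw [inf_iSup_eq, iSup_inf_eq]
        refine iSup_le fun r => ?_
        rw [inf_iSup_eq, iSup_inf_eq]
        refine iSup_le fun hr => ?_
        have h8 : leF (F r σ.length) (Φ (chk u)) ⊓ C (Φ (chk u)) σ ≤
            infC T C (List.replicate τ.length 0) σ := by
          refine (hmono _ _ (hFfn r _) (hΦfn _ hu) σ).trans ?_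
          refine (hFC r _ σ rfl).trans ?_
          rw [← hr]
          exact h37_infC_le hT C hmono r σ
        have h9 : a (m :: τ) ≤ a τ := by
          rw [← hasup τ]
          exact le_iSup (fun m => a (m :: τ)) m
        rw [inf_assoc]
        refine (inf_le_inf h9 h8).trans ?_
        exact le_subV_iff.1 (hZsub τ) σ
      have h10 : Z τ σ ≤ ⨆ τ ∈ R, Z τ σ := le_iSup₂_of_le τ hτ le_rfl
      calc a (m :: τ) ≤ (C (Φ (chk u)) σ)ᶜ ⊔ (a (m :: τ) ⊓ C (Φ (chk u)) σ) := by
            rw [sup_inf_left, compl_sup_eq_top, inf_top_eq]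
            exact le_sup_right
        _ ≤ _ := sup_le_sup_left (h6.trans h10) _
    calc a [] ⊓ C (Φ (chk u)) σ ≤ ((C (Φ (chk u)) σ)ᶜ ⊔ ⨆ τ ∈ R, Z τ σ) ⊓ C (Φ (chk u)) σ :=
          inf_le_inf_right _ h2
      _ ≤ _ := by
        rw [inf_sup_right, compl_inf_eq_bot, bot_sup_eq]
        exact inf_le_left
  obtain ⟨h, hh, hhnull⟩ := lemmaA0 hc hS D hD hDmono hDnull
  refine ⟨a [], haT [], ha0, hab, Φ h, hΦfn h hh, D h, (hD h hh).1, (hD h hh).2, hhnull, ?_⟩
  rw [le_subV_iff]
  intro σ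
  exact le_proj S _

end A4

end Pool.Agent.Helper33.HM
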